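import Pool.Agent.helper7.AL.SpecM

/-!
# MP_bf63dc_nt, row MSP: the exceptional differences divisible by `2 m` are sparse
-/

set_option autoImplicit false

namespace Pool.Agent.AL

open Finset Pool.Agent.helper85.FC Pool.Agent.helper11.MK

theorem MSP (h : KSB_stmt) : MSP_stmt := by
  classical
  intro m K hm hK
  obtain ⟨C, hC, hKSB⟩ := h K hK
  refine ⟨C, hC, fun hT u N => ?_⟩
  by_contra hcon
  push Not at hcon
  rcases Nat.eq_zero_or_pos N with hN | hN
  · subst hN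
    have h1 : (#{c ∈ Ioc u (u + ((0 : ℕ) : ℤ)) | BadM m c} : ℝ) = 0 := by simp
    rw [h1] at hcon
    have h2 : 0 ≤ C * ((0 : ℕ) : ℝ) ^ (1 - 1 / (K : ℝ)) := by positivity
    linarith
  · have hN0 : (0 : ℝ) < N := by exact_mod_cast hN
    set B : Finset ℤ := {c ∈ Ioc u (u + (N : ℤ)) | BadM m c} with hB
    set L : Finset ℤ := Ioc (0 : ℤ) N with hL
    set R : Finset ℤ := Ioc u (u + 2 * (N : ℤ)) with hR
    set E : Finset (ℤ × ℤ) := (L ×ˢ R).filter (fun e => BadM m (e.2 - e.1)) with hE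
    have hLc : #L = N := by simp [hL]
    have hRc : #R = 2 * N := by
      rw [hR, Int.card_Ioc]
      omega
    have hcard : #(L ×ˢ B) ≤ #E := by
      apply Finset.card_le_card_of_injOn (fun e : ℤ × ℤ => (e.1, e.1 + e.2))
      · rintro ⟨x, c⟩ hxc
        rw [Finset.mem_coe, Finset.mem_product, hB, hL, Finset.mem_filter, Finset.mem_Ioc, Finset.mem_Ioc] at hxc
        obtain ⟨⟨hx1, hx2⟩, ⟨hc1, hc2⟩, hbad⟩ := hxc
        simp only at hx1 hx2 hc1 hc2 hbad
        rw [Finset.mem_coe, hE, Finset.mem_filter, Finset.mem_product, hL, hR, Finset.mem_Ioc, Finset.mem_Ioc]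
        simp only
        refine ⟨⟨⟨hx1, hx2⟩, by linarith, by linarith⟩, ?_⟩
        rw [add_sub_cancel_left]
        exact hbad
      · rintro ⟨x, c⟩ _ ⟨x', c'⟩ _ he
        simp only [Prod.mk.injEq] at he
        obtain ⟨h1, h2⟩ := he
        subst h1
        exact Prod.ext rfl (by simpa using h2)
    rw [Finset.card_product, hLc] at hcard
    have hlt : C * (N : ℝ) ^ (2 - 1 / (K : ℝ)) < #E := by
      have h1 : (N : ℝ) ^ (2 - 1 / (K : ℝ)) = N * (N : ℝ) ^ (1 - 1 / (K : ℝ)) := by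
        rw [show (2 - 1 / (K : ℝ)) = 1 + (1 - 1 / (K : ℝ)) by ring, Real.rpow_add hN0, Real.rpow_one]
      have h2 : ((N * #B : ℕ) : ℝ) ≤ #E := by exact_mod_cast hcard
      push_cast at h2
      calc C * (N : ℝ) ^ (2 - 1 / (K : ℝ)) = N * (C * (N : ℝ) ^ (1 - 1 / (K : ℝ))) := by rw [h1]; ring
        _ < N * (#B : ℝ) := mul_lt_mul_of_pos_left hcon hN0
        _ ≤ #E := h2
    obtain ⟨X, hX, Y, hY, hXc, hYc, hXY⟩ := hKSB N L R E hLc.le hRc.le (Finset.filter_subset _ _) hlt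
    have hbad : ∀ x ∈ X, ∀ y ∈ Y, BadM m (y - x) := fun x hx y hy => (Finset.mem_filter.1 (hXY x hx y hy)).2
    obtain ⟨x, hx, y, hy, ht⟩ := hT X Y hXc hYc (fun x hx y hy =>
      ⟨fun he => (hbad x hx y hy).1 (by rw [he, sub_self]), (hbad x hx y hy).2.1⟩)
    exact (hbad x hx y hy).2.2 ht

end Pool.Agent.AL
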